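import Pool.Agent.Lib.MP_efc3dd_lc.Main
import Pool.Agent.Lib.MP_efc3dd_lc.XSucc
import Pool.Agent.Lib.MP_efc3dd_lc.YMain

set_option autoImplicit false

/-!
# The Scott rank bound for `Π_α` classes of trees: `α + 2` is never attained, `α + 1` is attained
exactly at limit ordinals

Proof outline (files in `Pool/Agent/Lib/MP_efc3dd_lc`).

`Main`: every nonempty `Π_α` class of trees has a member of Scott rank at most `α + 1`.

Successor `α = γ + 1` (files `X*`): in a tree, a child is algebraic if a finite part of the subtree
above it is realised up to `≤_γ` in only finitely many siblings. Going through the siblings in a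
fixed order, a child is discarded if it is `≥_γ` a limit child chosen before; the chosen limit
children are taken infinitely often and the remaining algebraic ones once, finite parts which
separate the chosen ones being protected further up. The result is `≥_{γ+1}` the old tree, each
child is isolated from the later ones by a `Σ_{γ+1}` property, and a counting argument shows that
the orbits of the new tree are `Σ_{γ+1}`-definable.

Limit `α` (files `Y*`): `T_F`, for a finite set `F` of natural numbers, has above its root
infinitely many copies of the saturated ranked trees of rank `ω·β_k` (`k ∉ F`) or `ω·β_k + 1`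
(`k ∈ F`), where `β_k` increases to `α`; `M_0` has infinitely many copies of each `T_F`. The
sentence says that `M_0 ≤_β S` for all `β < α`. In a model `S` remove all the subtrees above
children which are `≡_α` to a given one: the result is not isomorphic to `S` but satisfies all
`Π_{α+1}` sentences true in `S`.
-/

namespace Pool.Agent.Results.MP_efc3dd_lc.SharpAtLimits

open Pool.Agent.Lib.MP_efc3dd_lc

/-- Some `Π_α` sentence has a countable tree model, and every countable tree model of it has Scott
rank at least `β`: it has no `Π_{γ+1}` Scott sentence for `γ < β`. -/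
def Attained (α β : Ordinal.{0}) : Prop :=
  ∃ φ : Fm 0, Lvl false α φ ∧
    (∃ (M : Type) (r : M → M → Prop), Countable M ∧ IsTree r ∧ φ.Realize r ![]) ∧
    ∀ (M : Type) (r : M → M → Prop), Countable M → IsTree r → φ.Realize r ![] →
      ∀ γ < β, ¬ ∃ ψ : Fm 0, Lvl false (γ + 1) ψ ∧ IsScottSentence r ψ

theorem result (α : Ordinal.{0}) (h1 : 1 ≤ α) (hα : α < Ordinal.omega 1) :
    ¬ Attained α (α + 2) ∧ (Attained α (α + 1) ↔ Order.IsSuccLimit α) := by
  refine ⟨?_, ?_⟩
  · rintro ⟨φ, hφ, ⟨M, r, hM, hr, hφM⟩, hall⟩
    obtain ⟨N, s, hN, hs, hφN, ψ, hψ, hS⟩ := main h1 hφ hr hφM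
    refine hall N s hN hs hφN (α + 1) ?_ ⟨ψ, hψ, hS⟩
    have : (α + 2 : Ordinal.{0}) = α + 1 + 1 := by
      rw [add_assoc, one_add_one_eq_two]
    rw [this]
    exact Order.lt_add_one_iff.2 le_rfl
  · constructor
    · rintro ⟨φ, hφ, ⟨M, r, hM, hr, hφM⟩, hall⟩
      rcases Ordinal.zero_or_succ_or_isSuccLimit α with h0 | ⟨γ, rfl⟩ | hlim
      · rw [h0] at h1
        exact absurd h1 (not_le.2 zero_lt_one)
      · exfalso
        obtain ⟨N, s, hN, hs, hφN, ψ, hψ, hS⟩ := succ_main (γ := γ) hφ hr hφM
        exact hall N s hN hs hφN (γ + 1) (Order.lt_succ _) ⟨ψ, hψ, hS⟩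
      · exact hlim
    · intro hlim
      have h2 : ∀ β < α, β + 1 < α := fun β hβ => hlim.succ_lt hβ
      obtain ⟨φ, g1, g2, g3⟩ := lim_main (zero_lt_one.trans_le h1) h2 hα
      refine ⟨φ, g1, g2, fun M r hM hr hφM γ hγ ⟨ψ, hψ, hS⟩ => ?_⟩
      refine g3 M r hM hr hφM ψ (hψ.mono ?_) hS
      exact add_le_add_left (Order.lt_add_one_iff.1 hγ) 1

end Pool.Agent.Results.MP_efc3dd_lc.SharpAtLimits
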